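import Pool.Agent.W217.BE.Stm3

set_option autoImplicit false

/-!
Rank count over a domain.
-/

namespace Pool.Agent.W470.BERKX

open Pool.Agent.W217.BE

theorem main : RKX := by
  intro B _ _ N _ _ a ha htor r dX ε hres
  obtain ⟨hsur, h0, hex⟩ := hres
  have hle : ∀ i, Module.rank B (LinearMap.range (dX i)) ≤ (r i : Cardinal) := by
    intro i
    have h1 := Submodule.rank_le (LinearMap.range (dX i))
    rwa [rank_fin_fun] at h1
  have hs : ∀ i, ∃ n : ℕ, Module.rank B (LinearMap.range (dX i)) = (n : Cardinal) := by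
    intro i
    exact Cardinal.lt_aleph0.1 ((hle i).trans_lt Cardinal.natCast_lt_aleph0)
  choose s hs using hs
  have e0 : s 0 = r 0 := by
    have h1 := LinearMap.rank_range_add_rank_ker ε
    rw [← h0, hs 0, rank_fin_fun] at h1
    have h2 : Module.rank B (LinearMap.range ε) = 0 := by
      rw [rank_eq_zero_iff]
      rintro ⟨x, hx⟩
      exact ⟨a, ha, Subtype.ext (htor x)⟩
    rw [h2, zero_add] at h1
    exact_mod_cast h1
  have e1 : ∀ i, s i + s (i + 1) = r (i + 1) := by
    intro i
    have h1 := LinearMap.rank_range_add_rank_ker (dX i)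
    rw [← hex i, hs i, hs (i + 1), rank_fin_fun] at h1
    exact_mod_cast h1
  have q0 := e1 0
  have q1 := e1 1
  have q2 := e1 2
  have q3 := e1 3
  have q4 := e1 4
  simp only [Nat.reduceAdd] at q0 q1 q2 q3 q4
  constructor
  · rintro ⟨x, hx⟩
    have h3 : s 2 ≠ 0 := by
      intro h
      have h4 := hs 2
      rw [h, Nat.cast_zero, rank_eq_zero_iff] at h4
      obtain ⟨b, hb, hb2⟩ := h4 ⟨dX 2 x, x, rfl⟩
      have h5 : b • dX 2 x = 0 := congrArg Subtype.val hb2
      rcases smul_eq_zero.1 h5 with h6 | h6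
      · exact hb h6
      · exact hx h6
    omega
  · intro h5
    omega

end Pool.Agent.W470.BERKX
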