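import Pool.Agent.W886.MZ.Stm0

/-!
# The null cover for the coded strings
-/

set_option autoImplicit false

set_option maxHeartbeats 400000

namespace Pool.Agent.W470.MZNUL

open Finset Filter Pool.Agent.NPC H568R2 Pool.Agent.H676
open Pool.Agent.H622R2 Pool.Agent.H620R2.Gauge
open Pool.Agent.W911.AL Pool.Agent.W911.KM Pool.Agent.W886.MZ

attribute [local irreducible] unpair

/-- the letters of `w` with numbers of targets agree with the predictions -/
def ag (h : ℕ → Bool) (a : ℕ → ℕ → Bool) (e : ℕ) (w : List Bool) : Bool :=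
  (List.range w.length).all (fun j => !(tgt h e j) || (w.getD j false == a e j))

/-- the number of targets among the first `ℓ` strings -/
def cnt (h : ℕ → Bool) (e ℓ : ℕ) : ℕ := ((List.range ℓ).filter (fun j => tgt h e j)).length

/-- the bets of algorithm number `e` -/
noncomputable def TT (h : ℕ → Bool) (a : ℕ → ℕ → Bool) (e : ℕ) (w : List Bool) : ℝ :=
  if ag h a e w = true then 2 ^ cnt h e w.length / 2 ^ (e + 1) else 0

/-- all bets -/
noncomputable def DD (h : ℕ → Bool) (a : ℕ → ℕ → Bool) (w : List Bool) : ℝ :=
  1 / 2 ^ (w.length + 1) + ∑ e ∈ range (w.length + 1), TT h a e w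

section Comb

variable (h : ℕ → Bool) (a : ℕ → ℕ → Bool)

theorem tgt_spec {e j : ℕ} : tgt h e j = true ↔
    ∃ m, m < j + 1 ∧ h m = true ∧ j + 1 = 2 ^ m ∧ e < rk h m := by
  unfold tgt
  rw [List.any_eq_true]
  constructor
  · rintro ⟨m, hm, h1⟩
    rw [Bool.and_eq_true, Bool.and_eq_true, decide_eq_true_iff, decide_eq_true_iff] at h1
    exact ⟨m, List.mem_range.1 hm, h1.1.1, h1.1.2, h1.2⟩
  · rintro ⟨m, hm, h1, h2, h3⟩
    refine ⟨m, List.mem_range.2 hm, ?_⟩
    rw [Bool.and_eq_true, Bool.and_eq_true, decide_eq_true_iff, decide_eq_true_iff]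
    exact ⟨⟨h1, h2⟩, h3⟩

theorem rk_le (m : ℕ) : rk h m ≤ m := by
  unfold rk
  refine (List.length_filter_le _ _).trans ?_
  rw [List.length_range]

theorem rk_succ (m : ℕ) : rk h (m + 1) = rk h m + if h m = true then 1 else 0 := by
  unfold rk
  rw [List.range_succ, List.filter_append, List.length_append]
  congr 1
  by_cases h1 : h m = true <;> simp [h1]

theorem rk_mono {m m' : ℕ} (hm : m ≤ m') : rk h m ≤ rk h m' := by
  induction m', hm using Nat.le_induction with
  | base => exact le_rfl
  | succ m' _ ih => rw [rk_succ]; omega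

theorem tgt_lt {e j : ℕ} (h1 : tgt h e j = true) : e < j := by
  obtain ⟨m, hm, -, -, h4⟩ := (tgt_spec h).1 h1
  have := rk_le h m
  omega

theorem TT_nonneg (e : ℕ) (w : List Bool) : 0 ≤ TT h a e w := by
  unfold TT
  split_ifs
  · positivity
  · exact le_rfl

theorem ag_append (e : ℕ) (w : List Bool) (b : Bool) :
    ag h a e (w ++ [b]) = (ag h a e w && (!(tgt h e w.length) || (b == a e w.length))) := by
  unfold ag
  rw [List.length_append, List.length_singleton, List.range_succ, List.all_append]
  congr 1
  · rw [Bool.eq_iff_iff, List.all_eq_true, List.all_eq_true]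
    refine forall_congr' fun j => forall_congr' fun hj => ?_
    rw [getD_append_lt (List.mem_range.1 hj)]
  · simp only [List.all_cons, List.all_nil, Bool.and_true]
    have h : (w ++ [b]).getD w.length false = b := by
      rw [List.getD_eq_getElem?_getD]
      simp
    rw [h]

theorem cnt_succ (e ℓ : ℕ) :
    cnt h e (ℓ + 1) = cnt h e ℓ + if tgt h e ℓ = true then 1 else 0 := by
  unfold cnt
  rw [List.range_succ, List.filter_append, List.length_append]
  congr 1
  by_cases h : tgt h e ℓ = true <;> simp [h]

theorem cnt_mono {e m m' : ℕ} (hm : m ≤ m') : cnt h e m ≤ cnt h e m' := by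
  induction m', hm using Nat.le_induction with
  | base => exact le_rfl
  | succ m' _ ih => rw [cnt_succ]; omega

theorem cnt_le (e ℓ : ℕ) : cnt h e ℓ ≤ ℓ := by
  unfold cnt
  refine (List.length_filter_le _ _).trans ?_
  rw [List.length_range]

theorem TT_avg (e : ℕ) (w : List Bool) :
    TT h a e (w ++ [false]) + TT h a e (w ++ [true]) = 2 * TT h a e w := by
  unfold TT
  simp only [ag_append, List.length_append, List.length_singleton, cnt_succ]
  by_cases h1 : tgt h e w.length = true
  · cases hag : ag h a e w
    · simp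
    · cases hw : a e w.length <;> simp [h1, pow_succ] <;> ring
  · cases hag : ag h a e w <;> simp [h1] <;> ring

theorem TT_far {e : ℕ} {w : List Bool} (h0 : w.length ≤ e) :
    TT h a e w = 1 / 2 ^ (e + 1) := by
  have h0 : ∀ j < w.length, ¬ tgt h e j = true := fun j hj h1 => by
    have := tgt_lt h h1
    omega
  have h1 : ag h a e w = true := by
    unfold ag
    rw [List.all_eq_true]
    intro j hj
    simp [h0 j (List.mem_range.1 hj)]
  have h2 : cnt h e w.length = 0 := by
    unfold cnt
    rw [List.length_eq_zero_iff, List.filter_eq_nil_iff]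
    intro j hj
    exact h0 j (List.mem_range.1 hj)
  unfold TT
  rw [if_pos h1, h2, pow_zero]

theorem DD_avg (w : List Bool) :
    DD h a (w ++ [false]) + DD h a (w ++ [true]) = 2 * DD h a w := by
  unfold DD
  simp only [List.length_append, List.length_singleton]
  rw [Finset.sum_range_succ _ (w.length + 1), Finset.sum_range_succ _ (w.length + 1),
    TT_far h a (e := w.length + 1) (w := w ++ [false]) (by simp),
    TT_far h a (e := w.length + 1) (w := w ++ [true]) (by simp)]
  have h1 : ∑ n ∈ range (w.length + 1), TT h a n (w ++ [false]) +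
      ∑ n ∈ range (w.length + 1), TT h a n (w ++ [true]) =
      2 * ∑ n ∈ range (w.length + 1), TT h a n w := by
    rw [← Finset.sum_add_distrib, Finset.mul_sum]
    exact Finset.sum_congr rfl fun n _ => TT_avg h a n w
  have h2 : (1 : ℝ) / 2 ^ (w.length + 1 + 1) + 1 / 2 ^ (w.length + 1 + 1) =
      1 / 2 ^ (w.length + 1) := by
    rw [pow_succ _ (w.length + 1)]
    field_simp
    norm_num
  linarith

/-- the numerator -/
def numW (w : List Bool) : ℕ :=
  2 + ((List.range (w.length + 1)).map (fun e =>
    if ag h a e w = true then 2 ^ (cnt h e w.length + (w.length + 1 - e)) else 0)).sum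

theorem DD_eq (w : List Bool) : DD h a w = (numW h a w : ℝ) / 2 ^ (w.length + 2) := by
  unfold DD numW
  rw [Nat.cast_add, add_div]
  congr 1
  · rw [pow_succ _ (w.length + 1), Nat.cast_ofNat]
    field_simp
  · have h1 : (((List.range (w.length + 1)).map (fun n => if ag h a n w = true then
        2 ^ (cnt h n w.length + (w.length + 1 - n)) else 0)).sum : ℕ) =
        ∑ n ∈ range (w.length + 1), if ag h a n w = true then
          2 ^ (cnt h n w.length + (w.length + 1 - n)) else 0 := rfl
    rw [h1]
    push_cast
    rw [Finset.sum_div]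
    refine Finset.sum_congr rfl fun n hn => ?_
    rw [Finset.mem_range] at hn
    unfold TT
    by_cases h : ag h a n w = true
    · rw [if_pos h, if_pos h]
      have h2 : w.length + 2 = (n + 1) + (w.length + 1 - n) := by omega
      rw [h2, pow_add _ (n + 1), pow_add _ (cnt _ n w.length)]
      field_simp
    · rw [if_neg h, if_neg h, zero_div]

/-! ## success -/

variable {h} in
theorem rk_large (hI : {m | h m = true}.Infinite) (K : ℕ) : ∃ m, K ≤ rk h m := by
  induction K with
  | zero => exact ⟨0, Nat.zero_le _⟩
  | succ K ih =>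
    obtain ⟨m, hm⟩ := ih
    obtain ⟨m', h1, h2⟩ := hI.exists_gt m
    refine ⟨m' + 1, ?_⟩
    have h3 := rk_mono h (le_of_lt h2)
    have h4 : h m' = true := h1
    rw [rk_succ, if_pos h4]
    omega

variable {h} in
theorem cnt_large (hI : {m | h m = true}.Infinite) (e K : ℕ) : ∃ n, K ≤ cnt h e n := by
  induction K with
  | zero => exact ⟨0, Nat.zero_le _⟩
  | succ K ih =>
    obtain ⟨n, hn⟩ := ih
    obtain ⟨m0, hm0⟩ := rk_large hI (e + 1)
    obtain ⟨m, h1, h2⟩ := hI.exists_gt (max m0 n)
    have h3 := rk_mono h (le_trans (le_max_left m0 n) (le_of_lt h2))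
    have h4 : m < 2 ^ m := Nat.lt_two_pow_self
    have h5 : tgt h e (2 ^ m - 1) = true := by
      rw [tgt_spec]
      exact ⟨m, by omega, h1, by omega, by omega⟩
    refine ⟨2 ^ m - 1 + 1, ?_⟩
    have h6 : n ≤ 2 ^ m - 1 := by
      have := le_max_right m0 n
      omega
    have h7 := cnt_mono h (e := e) h6
    rw [cnt_succ, if_pos h5]
    omega

/-- the success of the bets -/
theorem DD_large {L : Set (List Bool)} {e k n : ℕ}
    (hL : ∀ j, tgt h e j = true → (a e j = true ↔ str j ∈ L)) (hn : k + e + 1 ≤ cnt h e n) :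
    1 ≤ DD h a (prefL L n) / 2 ^ k := by
  classical
  set w := prefL L n with hw
  have hl : w.length = n := length_prefL _ _
  have h1 : ag h a e w = true := by
    unfold ag
    rw [List.all_eq_true]
    intro j hj
    rw [List.mem_range, hl] at hj
    by_cases hjn : tgt h e j = true
    · have h2 : w.getD j false = decide (str j ∈ L) := by
        rw [hw, prefL, List.getD_eq_getElem?_getD]
        simp [hj]
      rw [h2]
      have h3 : decide (str j ∈ L) = a e j := by
        rw [Bool.eq_iff_iff, decide_eq_true_iff]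
        exact (hL j hjn).symm
      simp [h3]
    · simp [hjn]
  have h2 : TT h a e w = 2 ^ cnt h e n / 2 ^ (e + 1) := by
    unfold TT
    rw [if_pos h1, hl]
  have h3 : TT h a e w ≤ DD h a w := by
    unfold DD
    have h5 : TT h a e w ≤ ∑ m ∈ range (w.length + 1), TT h a m w := by
      refine Finset.single_le_sum (fun m _ => TT_nonneg h a m w) ?_
      have h6 := cnt_le h e n
      rw [Finset.mem_range, hl]
      omega
    have h6 : (0 : ℝ) ≤ 1 / 2 ^ (w.length + 1) := by positivity
    linarith
  rw [le_div_iff₀ (by positivity), one_mul]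
  refine le_trans ?_ h3
  rw [h2, le_div_iff₀ (by positivity), ← pow_add]
  exact pow_le_pow_right₀ (by norm_num) (by omega)

end Comb

theorem sval_replicate (m : ℕ) : sval (List.replicate m false) = 2 ^ m := by
  induction m with
  | zero => rfl
  | succ m ih =>
    rw [List.replicate_succ', sval_append, ih, pow_succ]
    simp
    ring

theorem str_zeros (m : ℕ) : str (2 ^ m - 1) = List.replicate m false := by
  have h1 := str_idx (List.replicate m false)
  rw [idx_eq, sval_replicate] at h1
  exact h1

/-! ## computation -/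

theorem poly_h {h : ℕ → Bool} (hP : PolyTime (fun x => [h x.length])) {α : Type} [TEnc α]
    {m : α → ℕ} (hm : UPoly m) : Poly (fun i => h (m i)) := by
  have h1 : Poly (fun x : List Bool => [h x.length]) := poly_of_polyTime hP
  have h2 := h1.comp (Pool.Agent.H628R3.RO.p_replicate hm true)
  refine (Poly.getD (d := fun _ => false) h2 (NPC.Poly.const 0) (NPC.Poly.const false)).congr
    fun i => ?_
  simp

theorem poly_rk {h : ℕ → Bool} (hP : PolyTime (fun x => [h x.length])) {α : Type} [TEnc α]
    {m : α → ℕ} (hm : UPoly m) : UPoly (fun i => rk h (m i)) := by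
  have h1 : Poly (fun i => (List.range (m i)).filter (fun j => h (min j (m i)))) := by
    refine Poly.filter (p := fun (i : α) (j : ℕ) => h (min j (m i))) (UPoly.range hm) ?_
    have h2 : UPoly (fun p : α × ℕ => m p.1) := hm.comp (Poly.fst Poly.id)
    exact poly_h hP (UPoly.of_le (Poly.min (Poly.snd Poly.id) h2.toPoly) h2
      fun p => min_le_right _ _)
  refine Poly.congr (UPoly.length h1) fun i => ?_
  beta_reduce
  congr 1
  unfold rk
  congr 1
  apply List.filter_congr
  intro j hj
  rw [min_eq_left (List.mem_range.1 hj).le]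

theorem poly_tgt {h : ℕ → Bool} (hP : PolyTime (fun x => [h x.length])) {α : Type} [TEnc α]
    {e j : α → ℕ} (he : Poly e) (hj : UPoly j) : Poly (fun i => tgt h (e i) (j i)) := by
  have hj1 : UPoly (fun i => j i + 1) := UPoly.add hj (UPoly.const 1)
  have h1 : Poly (fun i => (List.range (j i + 1)).any (fun m => h (min m (j i + 1)) &&
      decide (j i + 1 = 2 ^ (min m (j i + 1))) && decide (e i < rk h (min m (j i + 1))))) := by
    refine Poly.any (p := fun (i : α) (m : ℕ) => h (min m (j i + 1)) &&
      decide (j i + 1 = 2 ^ (min m (j i + 1))) && decide (e i < rk h (min m (j i + 1))))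
      (UPoly.range hj1) ?_
    have h2 : UPoly (fun p : α × ℕ => j p.1 + 1) := hj1.comp (Poly.fst Poly.id)
    have h3 : UPoly (fun p : α × ℕ => min p.2 (j p.1 + 1)) :=
      UPoly.of_le (Poly.min (Poly.snd Poly.id) h2.toPoly) h2 fun p => min_le_right _ _
    exact Poly.and (Poly.and (poly_h hP h3) (Poly.decide_eq h2.toPoly (poly_pow2 h3)))
      (Poly.decide_lt (he.comp (Poly.fst Poly.id)) (poly_rk hP h3).toPoly)
  refine h1.congr fun i => ?_
  unfold tgt
  rw [Bool.eq_iff_iff, List.any_eq_true, List.any_eq_true]
  refine exists_congr fun m => and_congr_right fun hm => ?_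
  rw [min_eq_left (List.mem_range.1 hm).le]

/-- the answers in a list -/
theorem poly_ag {h : ℕ → Bool} (hP : PolyTime (fun x => [h x.length])) {α : Type} [TEnc α]
    {w l : α → List Bool} {e : α → ℕ} (hw : Poly w) (hl : Poly l)
    (he : Poly e) : Poly (fun i => ag h (fun e j => (l i).getD (e * (w i).length + j) false)
      (e i) (w i)) := by
  have h0 : Poly (fun i => (List.range (w i).length).all (fun j =>
      !(tgt h (e i) (min j (w i).length)) ||
        ((w i).getD j false == (l i).getD (e i * (w i).length + j) false))) := by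
    refine Poly.all (p := fun (i : α) (j : ℕ) => !(tgt h (e i) (min j (w i).length)) ||
      ((w i).getD j false == (l i).getD (e i * (w i).length + j) false))
      (UPoly.range (UPoly.length hw)) ?_
    have h5 : UPoly (fun p : α × ℕ => (w p.1).length) :=
      UPoly.length (hw.comp (Poly.fst Poly.id))
    have h1 : Poly (fun p : α × ℕ => tgt h (e p.1) (min p.2 (w p.1).length)) :=
      poly_tgt hP (he.comp (Poly.fst Poly.id)) (UPoly.of_le (Poly.min (Poly.snd Poly.id)
        h5.toPoly) h5 fun p => min_le_right _ _)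
    have h2 : Poly (fun p : α × ℕ => (w p.1).getD p.2 false) :=
      Poly.getD (hw.comp (Poly.fst Poly.id)) (Poly.snd Poly.id) (NPC.Poly.const false)
    have h3 : Poly (fun p : α × ℕ => (l p.1).getD (e p.1 * (w p.1).length + p.2) false) :=
      Poly.getD (hl.comp (Poly.fst Poly.id)) (Poly.add (Poly.mul (he.comp (Poly.fst Poly.id))
        h5.toPoly) (Poly.snd Poly.id)) (NPC.Poly.const false)
    exact Poly.or (Poly.not h1) ((Poly.decide_eq h2 h3).congr fun p => by
      cases (w p.1).getD p.2 false <;>
        cases (l p.1).getD (e p.1 * (w p.1).length + p.2) false <;> rfl)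
  refine h0.congr fun i => ?_
  unfold ag
  rw [Bool.eq_iff_iff, List.all_eq_true, List.all_eq_true]
  refine forall_congr' fun j => forall_congr' fun hj => ?_
  rw [min_eq_left (List.mem_range.1 hj).le]

theorem poly_cnt {h : ℕ → Bool} (hP : PolyTime (fun x => [h x.length])) {α : Type} [TEnc α]
    {e ℓ : α → ℕ} (he : Poly e) (hℓ : UPoly ℓ) : UPoly (fun i => cnt h (e i) (ℓ i)) := by
  have h1 : Poly (fun i => (List.range (ℓ i)).filter (fun j => tgt h (e i) (min j (ℓ i)))) := by
    refine Poly.filter (p := fun (i : α) (j : ℕ) => tgt h (e i) (min j (ℓ i)))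
      (UPoly.range hℓ) ?_
    have h2 : UPoly (fun p : α × ℕ => ℓ p.1) := hℓ.comp (Poly.fst Poly.id)
    exact poly_tgt hP (he.comp (Poly.fst Poly.id)) (UPoly.of_le (Poly.min (Poly.snd Poly.id)
      h2.toPoly) h2 fun p => min_le_right _ _)
  refine Poly.congr (UPoly.length h1) fun i => ?_
  beta_reduce
  congr 1
  unfold cnt
  congr 1
  apply List.filter_congr
  intro j hj
  rw [min_eq_left (List.mem_range.1 hj).le]

theorem poly_numW {h : ℕ → Bool} (hP : PolyTime (fun x => [h x.length])) {α : Type} [TEnc α]
    {w l : α → List Bool} (hw : Poly w) (hl : Poly l) :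
    Poly (fun i => numW h (fun e j => (l i).getD (e * (w i).length + j) false) (w i)) := by
  have hw' : Poly (fun p : α × ℕ => w p.1) := hw.comp (Poly.fst Poly.id)
  have hl' : Poly (fun p : α × ℕ => l p.1) := hl.comp (Poly.fst Poly.id)
  have hn' : Poly (fun p : α × ℕ => p.2) := Poly.snd Poly.id
  have h1 : UPoly (fun p : α × ℕ => cnt h p.2 (w p.1).length + ((w p.1).length + 1 - p.2)) := by
    refine UPoly.add (poly_cnt hP hn' (UPoly.length hw')) ?_
    refine UPoly.of_le (Poly.sub (Poly.succ (Poly.length hw')) hn')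
      (UPoly.add (UPoly.length hw') (UPoly.const 1)) fun p => by omega
  unfold numW
  refine Poly.add (NPC.Poly.const 2) (Poly.sum (NPC.Poly.map (F := fun (i : α) (n : ℕ) =>
    if ag h (fun e j => (l i).getD (e * (w i).length + j) false) n (w i) = true then
      2 ^ (cnt h n (w i).length + ((w i).length + 1 - n)) else 0)
    (UPoly.range (UPoly.add (UPoly.length hw) (UPoly.const 1))) ?_))
  exact Poly.ite ((Poly.decide_eq (poly_ag hP hw' hl' hn') (NPC.Poly.const true)))
    (poly_pow2 h1) (NPC.Poly.const 0)

theorem numW_congr {h : ℕ → Bool} {a a' : ℕ → ℕ → Bool} {w : List Bool}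
    (h0 : ∀ e ≤ w.length, ∀ j < w.length, a e j = a' e j) : numW h a w = numW h a' w := by
  have h1 : ∀ n ≤ w.length, ag h a n w = ag h a' n w := by
    intro n hn
    unfold ag
    rw [Bool.eq_iff_iff, List.all_eq_true, List.all_eq_true]
    refine forall_congr' fun j => forall_congr' fun hj => ?_
    rw [h0 n hn j (List.mem_range.1 hj)]
  unfold numW
  congr 2
  apply List.map_congr_left
  intro n hn
  rw [h1 n (by have := List.mem_range.1 hn; omega)]

/-- the question number `i` for strings of length `ℓ` -/
def qy (ℓ i : ℕ) : List Bool :=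
  List.replicate (min (i / ℓ) ℓ) true ++ false :: List.replicate (min (i % ℓ) ℓ + 1) true

/-- the predictions -/
def aP (A : Oracle) (e j : ℕ) : Bool :=
  A (List.replicate e true ++ false :: List.replicate (j + 1) true)

theorem poly_qy {α : Type} [TEnc α] {ℓ i : α → ℕ} (hℓ : UPoly ℓ) (hi : Poly i) :
    Poly (fun x => qy (ℓ x) (i x)) := by
  unfold qy
  have h1 : UPoly (fun x => min (i x / ℓ x) (ℓ x)) :=
    UPoly.of_le (Poly.min (Poly.div hi hℓ.toPoly) hℓ.toPoly) hℓ fun x => min_le_right _ _
  have h2 : UPoly (fun x => min (i x % ℓ x) (ℓ x)) :=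
    UPoly.of_le (Poly.min (Poly.mod hi hℓ.toPoly) hℓ.toPoly) hℓ fun x => min_le_right _ _
  exact Poly.append (Pool.Agent.H628R3.RO.p_replicate h1 true)
    (Poly.cons (NPC.Poly.const false) (Pool.Agent.H628R3.RO.p_replicate
      (UPoly.add h2 (UPoly.const 1)) true))

theorem task : Pool.Agent.W886.MZ.S_NUL := by
  classical
  rintro h ⟨hI, hP⟩ A X hX
  have hD0 : ∀ w, 0 ≤ DD h (aP A) w := by
    intro w
    unfold DD
    have h1 : 0 ≤ ∑ n ∈ range (w.length + 1), TT h (aP A) n w :=
      Finset.sum_nonneg fun n _ => TT_nonneg _ _ _ _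
    positivity
  refine ⟨fun i w => DD h (aP A) w / 2 ^ i, ⟨fun i w => div_nonneg (hD0 w) (by positivity),
    fun i w => ?_, fun i => ?_, fun i L hL => ?_⟩, ?_⟩
  · beta_reduce
    have h1 := DD_avg h (aP A) w
    have h2 : (DD h (aP A) (w ++ [false]) / 2 ^ i + DD h (aP A) (w ++ [true]) / 2 ^ i) / 2 =
        ((DD h (aP A) (w ++ [false]) + DD h (aP A) (w ++ [true])) / 2) / 2 ^ i := by ring
    rw [h2, h1]
    apply le_of_eq
    ring
  · beta_reduce
    have h1 : DD h (aP A) [] = 1 := by
      unfold DD
      rw [List.length_nil, Finset.sum_range_one, TT_far h (aP A) (e := 0) (w := []) (by simp)]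
      norm_num
    rw [h1]
  · obtain ⟨e, he⟩ := hX L hL
    obtain ⟨n, hn⟩ := cnt_large hI e (i + e + 1)
    refine ⟨n, DD_large h (aP A) (e := e) ?_ hn⟩
    intro j hj
    obtain ⟨m, -, h1, h2, h3⟩ := (tgt_spec h).1 hj
    have h4 := he m h1 h3
    have h5 : j = 2 ^ m - 1 := by omega
    rw [h5, str_zeros, ← h4]
    unfold aP cs
    rw [← h5, h2]
  -- the computation
  have hw : Poly (fun z : List Bool => (unpair (unpair z).2).2) :=
    Poly.snd (poly_unpair.comp (Poly.snd poly_unpair))
  have hQ : Poly (fun z : List Bool => (List.range (((unpair (unpair z).2).2.length + 1) *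
      (unpair (unpair z).2).2.length)).map (fun j => qy (unpair (unpair z).2).2.length j)) := by
    refine NPC.Poly.map (F := fun (z : List Bool) (j : ℕ) =>
      qy (unpair (unpair z).2).2.length j) (UPoly.range (UPoly.mul (UPoly.add (UPoly.length hw)
        (UPoly.const 1)) (UPoly.length hw))) ?_
    have h1 : UPoly (fun p : List Bool × ℕ => (unpair (unpair p.1).2).2.length) :=
      UPoly.length (hw.comp (Poly.fst Poly.id))
    exact poly_qy h1 (Poly.snd Poly.id)
  have hH : Poly (fun p : List Bool × List Bool => pairBits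
      (Nat.bits (numW h (fun e j => p.2.getD (e * (unpair (unpair p.1).2).2.length + j) false)
        (unpair (unpair p.1).2).2))
      (pairBits [] (List.replicate ((unpair p.1).1.length +
        (unpair (unpair p.1).2).2.length + 2) true))) := by
    have h1 : Poly (fun p : List Bool × List Bool => (unpair (unpair p.1).2).2) :=
      hw.comp (Poly.fst Poly.id)
    have h2 : Poly (fun p : List Bool × List Bool => (unpair p.1).1) :=
      (Poly.fst poly_unpair).comp (Poly.fst Poly.id)
    refine poly_pairBits (Poly.natBits (poly_numW hP h1 (Poly.snd Poly.id)))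
      (poly_pairBits (NPC.Poly.const []) (Pool.Agent.H628R3.RO.p_replicate ?_ true))
    exact UPoly.add (UPoly.add (UPoly.length h2) (UPoly.length h1)) (UPoly.const 2)
  refine ⟨_, IsFP.tt (A := A) hQ hH, fun i r w => ?_⟩
  have e1 : (unpair (inp i r w)).1.length = i := by
    unfold Pool.Agent.W911.KM.inp
    rw [unpair_pairBits, List.length_replicate]
  have e2 : (unpair (unpair (inp i r w)).2).2 = w := by
    unfold Pool.Agent.W911.KM.inp
    rw [unpair_pairBits, unpair_pairBits]
  simp only [e1, e2]
  have e3 : numW h (fun e j => (((List.range ((w.length + 1) * w.length)).map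
      (fun j => qy w.length j)).map A).getD (e * w.length + j) false) w =
      numW h (aP A) w := by
    apply numW_congr
    intro e he j hj
    have h1 : e * w.length + j < (w.length + 1) * w.length := by nlinarith
    have h2 : (e * w.length + j) / w.length = e := by
      rw [Nat.mul_comm, Nat.mul_add_div (by omega), Nat.div_eq_of_lt hj, Nat.add_zero]
    have h3 : (e * w.length + j) % w.length = j := by
      rw [Nat.mul_comm, Nat.mul_add_mod, Nat.mod_eq_of_lt hj]
    rw [List.getD_eq_getElem?_getD]
    simp only [List.map_map, List.getElem?_map, List.getElem?_range h1, Option.map_some,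
      Option.getD_some, Function.comp_apply, qy, h2, h3, min_eq_left he, min_eq_left hj.le, aP]
  rw [e3]
  have e4 : dy (pairBits (Nat.bits (numW h (aP A) w))
      (pairBits [] (List.replicate (i + w.length + 2) true))) = DD h (aP A) w / 2 ^ i := by
    unfold dy
    simp only [unpair_pairBits, valB_bits, valB_nil, List.length_replicate]
    rw [DD_eq, Nat.cast_zero, sub_zero, div_div, ← pow_add]
    congr 2
    omega
  rw [e4, sub_self, abs_zero]
  positivity

end Pool.Agent.W470.MZNUL
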